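import Mathlib
import Pool.Agent.MP_cbf1af_ag.cmp.Final

/-! Large transcendence degree for periods of a simple abelian variety over the algebraic numbers:
`s` independent periods spanning a complex subspace `W` of dimension `r` force
`trdeg K ≥ s (g - r) / (g (2 r - s + 2))` for every field of definition `K` of `W`. -/

namespace Pool.Agent.Results.MP_cbf1af_ag.LargeDegree

theorem result (g N : ℕ) (Θ : Fin (N + 1) → (Fin g → ℂ) → ℂ) (Λ : AddSubgroup (Fin g → ℂ))
    (hA : Pool.Agent.CMP.IsAbelian Θ Λ) (s : ℕ) (lam : Fin s → Fin g → ℂ) (hΛ : ∀ i, lam i ∈ Λ)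
    (hind : LinearIndependent ℤ lam) (W : Submodule ℂ (Fin g → ℂ))
    (hW : W = Submodule.span ℂ (Set.range lam)) (K : IntermediateField ℚ ℂ)
    (hK : W ≤ Submodule.span ℂ {x | x ∈ W ∧ ∀ k, x k ∈ K}) (t : ℕ)
    (ht : Algebra.trdeg ℚ K ≤ t) :
    (s : ℤ) * (g - Module.finrank ℂ W) ≤ t * g * (2 * Module.finrank ℂ W - s + 2) :=
  Pool.Agent.CMP.main_final g N Θ Λ hA s lam hΛ hind W hW K hK t ht

end Pool.Agent.Results.MP_cbf1af_ag.LargeDegree
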