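import Mathlib
import Pool.Agent.MP_cbf1af_ag.cmp.Final

/-! The periods of a simple abelian variety over the algebraic numbers with multiplication by an
imaginary quadratic field of signature `(μ, g - μ)` generate a field of transcendence degree at
least `((g - μ)^2 - 1) / (4 g (μ + 1))`; for `μ = 1` this is `(g - 2) / 8`. -/

namespace Pool.Agent.Results.MP_cbf1af_ag.Signature

theorem result (g N : ℕ) (Θ : Fin (N + 1) → (Fin g → ℂ) → ℂ) (Λ : AddSubgroup (Fin g → ℂ))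
    (hA : Pool.Agent.CMP.IsAbelian Θ Λ) (φ : (Fin g → ℂ) →ₗ[ℂ] (Fin g → ℂ))
    (hφ : ∀ l ∈ Λ, φ l ∈ Λ) (d : ℕ) (a : ℂ) (hd : 0 < d)
    (hsq : φ ∘ₗ φ = -(d : ℂ) • LinearMap.id) (ha : a ^ 2 = -d) (μ : ℕ)
    (hμ : Module.finrank ℂ (LinearMap.range (φ - a • LinearMap.id)) = μ) (t : ℕ)
    (ht : Algebra.trdeg ℚ (IntermediateField.adjoin ℚ {x : ℂ | ∃ l ∈ Λ, ∃ k, x = l k}) ≤ t) :
    ((g : ℤ) - μ) ^ 2 ≤ 4 * t * g * (μ + 1) + 1 :=
  Pool.Agent.CMP.cor_final g N Θ Λ hA φ hφ d a hd hsq ha μ hμ t ht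

end Pool.Agent.Results.MP_cbf1af_ag.Signature
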