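import Mathlib
import Pool.Agent.MP_cbf1af_ag.h26.Main

/-! Boundedly many exceptional parameters in windows of power length, uniformly in the degree. -/

namespace Pool.Agent.Results.MP_cbf1af_ag.Window

theorem result (g : ℕ) (hg : 1 ≤ g) (f : Polynomial ℚ) (hf : f.natDegree = 2 * g)
    (α : Fin (2 * g) → ℂ) (hα : ∀ j, Polynomial.aeval (α j) f = 0)
    (hord : StrictMono fun j => toLex ((α j).re, (α j).im)) :
    ∃ K c κ : ℕ, ∀ δ H t : ℕ, (2 * H + 2) ^ (c * (δ + 1) ^ κ) ≤ t →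
      {τ ∈ Set.Icc t (t + H) | Pool.Agent.GPC.Exceptional f α δ τ}.ncard ≤ K :=
  Pool.Agent.GPC.window hg f hf α hα hord

end Pool.Agent.Results.MP_cbf1af_ag.Window
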